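import Pool.Agent.H62.LP.T4

/-!
# Percolation of good blocks gives an infinite cluster

Row GCL of the page `H62_LOOP3.md`.
-/

set_option autoImplicit false

open MeasureTheory ProbabilityTheory Filter Topology Pool.Agent.H62.LP
open scoped ENNReal NNReal

namespace Pool.Agent.H12.LP

theorem nmd_le_iff {d : ℕ} (x : Vt d) (r : ℕ) : nm x ≤ r ↔ ∀ i, (x i).natAbs ≤ r := by
  unfold nm
  rw [Finset.sup_le_iff]
  simp

theorem Conn_symm {S : Set Lp} {u v : V3} (h : Conn S u v) : Conn S v u := by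
  unfold Conn at h ⊢
  induction h with
  | refl => exact Relation.ReflTransGen.refl
  | tail _ hbc ih =>
    obtain ⟨c, hc, h1, h2⟩ := hbc
    exact Relation.ReflTransGen.head ⟨c, hc, h2, h1⟩ ih

theorem Conn_mono {S T : Set Lp} (hST : S ⊆ T) {u v : V3} (h : Conn S u v) : Conn T u v := by
  unfold Conn at h ⊢
  induction h with
  | refl => exact Relation.ReflTransGen.refl
  | tail _ hbc ih =>
    obtain ⟨c, hc, h1, h2⟩ := hbc
    exact ih.tail ⟨c, hST hc, h1, h2⟩

theorem Conn_trans {S : Set Lp} {u v w : V3} (h : Conn S u v) (h' : Conn S v w) : Conn S u w :=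
  Relation.ReflTransGen.trans h h'

section

variable {M' n β K : ℕ} {D : V3 → (Lp → ℕ) → Option Cr}

theorem sp_fst (ω : Om) : sp ω.1 ⊆ sp (tot ω) := by
  intro c hc
  have h1 : 1 ≤ ω.1 c := hc
  show 1 ≤ ω.1 c + ∑ j, ω.2 j c
  omega

theorem sp_snd (ω : Om) (j : Fin 20) : sp (ω.2 j) ⊆ sp (tot ω) := by
  intro c hc
  have h1 : 1 ≤ ω.2 j c := hc
  have h2 : ω.2 j c ≤ ∑ j, ω.2 j c :=
    Finset.single_le_sum (f := fun j => ω.2 j c) (fun _ _ => Nat.zero_le _) (Finset.mem_univ j)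
  show 1 ≤ ω.1 c + ∑ j, ω.2 j c
  omega

/-- the vertices of one crossing are joined -/
theorem ver_conn (hD : CrSel n β K D) (ω : Om) (x : V3) {u w : V3}
    (hu : u ∈ ver (D x ω.1)) (hw : w ∈ ver (D x ω.1)) : Conn (sp (tot ω)) u w := by
  obtain ⟨p, hp, hup⟩ := hu
  obtain ⟨p', hp', hwp⟩ := hw
  have e : p' = p := Option.mem_unique hp' hp
  subst e
  obtain ⟨h1, h2⟩ := hD.some x ω.1 p' hp
  exact Conn_mono (h2.trans (sp_fst ω)) (h1.2.2.2.2 u hup w hwp)

/-- there is a vertex close to the centre -/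
theorem ver_near (hD : CrSel n β K D) (ω : Om) (x : V3) (hx : D x ω.1 ≠ none) :
    ∃ u ∈ ver (D x ω.1), nm (u - sc n x) ≤ n := by
  obtain ⟨p, hp⟩ := Option.ne_none_iff_exists'.mp hx
  obtain ⟨h1, -⟩ := hD.some x ω.1 p hp
  obtain ⟨u, hu, hu2⟩ := h1.2.2.1
  exact ⟨u, ⟨p, hp, hu⟩, hu2⟩

/-- in a good block the vertices of the crossings are joined -/
theorem block_conn (hD : CrSel n β K D) (ω : Om) (v : V3) (hg : GoodB M' n β D v ω) (x y : V3)
    (hx : nm x ≤ β) (hy : nm y ≤ β) {u w : V3} (hu : u ∈ ver (D (x + v) ω.1))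
    (hw : w ∈ ver (D (y + v) ω.1)) : Conn (sp (tot ω)) u w := by
  have key : x = y ∨ (nm x ≤ 2 * β ∧ nm y ≤ 2 * β ∧ ∀ u ∈ ver (D (x + v) ω.1),
      ∀ w ∈ ver (D (y + v) ω.1), Conn (sp (tot ω)) u w) := by
    have h := hg.2 x y hx hy
    unfold RelJ at h
    clear hu hw hx hy
    induction h with
    | rel x y h =>
      right
      obtain ⟨h1, h2, j, z, h3, h4⟩ := h
      refine ⟨h1, h2, fun u hu w hw => ?_⟩
      obtain ⟨a, ha, b, hb, hab⟩ := h4
      have e1 := ver_conn hD ω (x + v) hu ha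
      have e2 := ver_conn hD ω (y + v) hb hw
      refine Conn_trans e1 (Conn_trans (Conn_mono ?_ hab) e2)
      intro c hc
      exact sp_snd ω j hc.1
    | refl x => exact Or.inl rfl
    | symm x y _ ih =>
      rcases ih with h | ⟨h1, h2, h3⟩
      · exact Or.inl h.symm
      · exact Or.inr ⟨h2, h1, fun u hu w hw => Conn_symm (h3 w hw u hu)⟩
    | trans x y z _ _ ih1 ih2 =>
      rcases ih1 with rfl | ⟨h1, h2, h3⟩
      · exact ih2
      · rcases ih2 with rfl | ⟨g1, g2, g3⟩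
        · exact Or.inr ⟨h1, h2, h3⟩
        · right
          refine ⟨h1, g2, fun u hu w hw => ?_⟩
          obtain ⟨s, hs, -⟩ := ver_near hD ω (y + v) (hg.1 y h2)
          exact Conn_trans (h3 u hu s hs) (g3 s hs w hw)
  rcases key with rfl | ⟨-, -, h3⟩
  · exact ver_conn hD ω _ hu hw
  · exact h3 u hu w hw

theorem nm_zero {d : ℕ} : nm (0 : Vt d) = 0 := by
  have h := (nmd_le_iff (0 : Vt d) 0).mpr (fun i => by simp)
  omega

theorem emb_sc_sub (β : ℕ) (y y' : Vt 2) (h : nm (y - y') ≤ 1) :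
    nm (sc β (emb y') - sc β (emb y)) ≤ β := by
  have h' := (nmd_le_iff _ _).mp h
  rw [nmd_le_iff]
  intro i
  have e : (sc β (emb y') - sc β (emb y)) i = (β : ℤ) * (emb y' i - emb y i) := by
    show (β : ℤ) * emb y' i - (β : ℤ) * emb y i = _
    ring
  rw [e, Int.natAbs_mul, Int.natAbs_natCast]
  have h2 : (emb y' i - emb y i).natAbs ≤ 1 := by
    have h0 := h' 0
    have h1 := h' 1
    rw [Pi.sub_apply] at h0 h1
    fin_cases i
    · show (y' 0 - y 0).natAbs ≤ 1
      omega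
    · show (y' 1 - y 1).natAbs ≤ 1
      omega
    · show ((0 : ℤ) - 0).natAbs ≤ 1
      simp
  calc β * (emb y' i - emb y i).natAbs ≤ β * 1 := Nat.mul_le_mul_left _ h2
    _ = β := mul_one β

/-- the centres of different blocks are far from each other -/
theorem centre_far (n β : ℕ) (hn : 1 ≤ n) (hβ : 3 ≤ β) (y y' : Vt 2) (hne : y ≠ y') (w : V3)
    (h1 : nm (w - sc n (sc β (emb y))) ≤ n) (h2 : nm (w - sc n (sc β (emb y'))) ≤ n) : False := by
  apply hne
  have h1' := (nmd_le_iff _ _).mp h1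
  have h2' := (nmd_le_iff _ _).mp h2
  have key : ∀ (a b t : ℤ), (t - (n : ℤ) * ((β : ℤ) * a)).natAbs ≤ n →
      (t - (n : ℤ) * ((β : ℤ) * b)).natAbs ≤ n → a = b := by
    intro a b t ha hb
    by_contra hab
    have h3 : (n : ℤ) * ((β : ℤ) * (a - b)) ≤ 2 * n ∧ -(2 * (n : ℤ)) ≤ (n : ℤ) * ((β : ℤ) * (a - b)) := by
      have e : (n : ℤ) * ((β : ℤ) * (a - b)) = (n : ℤ) * ((β : ℤ) * a) - (n : ℤ) * ((β : ℤ) * b) := by
        ring
      omega
    have hn' : (0 : ℤ) < n := by exact_mod_cast hn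
    have h4 : (β : ℤ) * (a - b) ≤ 2 := by
      by_contra hc
      push Not at hc
      nlinarith [h3.1]
    have h5 : -2 ≤ (β : ℤ) * (a - b) := by
      by_contra hc
      push Not at hc
      nlinarith [h3.2]
    have hβ' : (3 : ℤ) ≤ β := by exact_mod_cast hβ
    rcases lt_or_gt_of_ne hab with h | h
    · have : a - b ≤ -1 := by omega
      nlinarith
    · have : 1 ≤ a - b := by omega
      nlinarith
  funext i
  fin_cases i
  · have g1 := h1' 0
    have g2 := h2' 0
    exact key (y 0) (y' 0) (w 0) g1 g2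
  · have g1 := h1' 1
    have g2 := h2' 1
    exact key (y 1) (y' 1) (w 1) g1 g2

end

/-- GCL: percolation of good blocks gives an infinite cluster. -/
theorem pf_GCL : T_GCL := by
  intro M' n β K D hn hβ hD ω hinf
  set B : Set (Vt 2) := {y | ¬ GoodB M' n β D (sc β (emb y)) ω} with hB
  -- all points of the cluster are good
  have h0 : (0 : Vt 2) ∉ B := by
    intro h0
    apply hinf
    refine (Set.finite_singleton (0 : Vt 2)).subset ?_
    intro v hv
    have hv' : Relation.ReflTransGen (fun u v => u ∉ B ∧ v ∉ B ∧ nm (u - v) ≤ 1) 0 v := hv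
    rcases Relation.ReflTransGen.cases_head hv' with h | ⟨c, hc, -⟩
    · exact h.symm
    · exact absurd h0 hc.1
  have hgood : ∀ y, GoodB M' n β D (sc β (emb y)) ω ∨ y ∈ B := by
    intro y
    by_cases h : GoodB M' n β D (sc β (emb y)) ω
    · exact Or.inl h
    · exact Or.inr h
  have hgood' : ∀ y, y ∉ B → GoodB M' n β D (sc β (emb y)) ω := fun y hy =>
    (hgood y).resolve_right hy
  have hnot : ∀ y ∈ gcl B, y ∉ B := by
    intro y hy
    have hy' : Relation.ReflTransGen (fun u v => u ∉ B ∧ v ∉ B ∧ nm (u - v) ≤ 1) 0 y := hy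
    rcases Relation.ReflTransGen.cases_tail hy' with h | ⟨c, _, hc⟩
    · rw [h]; exact h0
    · exact hc.2.1
  have hDn : ∀ y, y ∉ B → D (sc β (emb y)) ω.1 ≠ none := by
    intro y hy
    have h1 := (hgood' y hy).1 0 (by rw [nm_zero]; exact Nat.zero_le _)
    rwa [zero_add] at h1
  obtain ⟨u0, hu0, -⟩ := ver_near hD ω _ (hDn 0 h0)
  refine ⟨u0, ?_⟩
  have hall : ∀ y ∈ gcl B, ∀ w ∈ ver (D (sc β (emb y)) ω.1), Conn (sp (tot ω)) u0 w := by
    intro y hy
    have hy' : Relation.ReflTransGen (fun u v => u ∉ B ∧ v ∉ B ∧ nm (u - v) ≤ 1) 0 y := hy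
    clear hy
    induction hy' with
    | refl =>
      intro w hw
      exact ver_conn hD ω _ hu0 hw
    | tail _ hbc ih =>
      rename_i b c _
      intro w hw
      obtain ⟨s, hs, -⟩ := ver_near hD ω _ (hDn b hbc.1)
      refine Conn_trans (ih s hs) ?_
      refine block_conn hD ω (sc β (emb b)) (hgood' b hbc.1) 0
        (sc β (emb c) - sc β (emb b)) (by rw [nm_zero]; exact Nat.zero_le _)
        (emb_sc_sub β b c hbc.2.2) ?_ ?_
      · rw [zero_add]; exact hs
      · rw [sub_add_cancel]; exact hw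
  -- one point for each block
  have hch : ∀ y : gcl B, ∃ u ∈ ver (D (sc β (emb y.1)) ω.1), nm (u - sc n (sc β (emb y.1))) ≤ n :=
    fun y => ver_near hD ω _ (hDn y.1 (hnot y.1 y.2))
  choose g hg1 hg2 using hch
  have hginj : Function.Injective g := by
    intro y y' h
    by_contra hne
    refine centre_far n β hn hβ y.1 y'.1 (fun h' => hne (Subtype.ext h')) (g y) (hg2 y) ?_
    rw [h]
    exact hg2 y'
  haveI : Infinite (gcl B) := hinf.to_subtype
  refine (Set.infinite_range_of_injective hginj).mono ?_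
  rintro _ ⟨y, rfl⟩
  exact hall y.1 y.2 (g y) (hg1 y)

end Pool.Agent.H12.LP
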