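import Pool.Agent.H7.LP.Targets2

/-!
# Row ISD of lpg_modules: non-archimedean groups are isometry groups of discrete spaces
-/

set_option autoImplicit false

open Set Filter Topology TopologicalSpace

namespace Pool.Agent.H12.LP

open Pool.Agent.H7.LP Pool.Agent.H93.CP Pool.Agent.H54.LP

/-- a type with the discrete metric -/
private def Dm (D : Type) : Type := D

open Classical in
private noncomputable instance (D : Type) : MetricSpace (Dm D) where
  dist x y := if x = y then 0 else 1
  dist_self x := by simp
  dist_comm x y := by simp [eq_comm]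
  dist_triangle x y z := by
    by_cases h1 : x = y
    · subst h1
      simp
    · by_cases h2 : y = z
      · subst h2
        simp
      · rw [if_neg h1, if_neg h2]
        split_ifs <;> norm_num
  eq_of_dist_eq_zero := by
    intro x y h
    by_contra hne
    simp [hne] at h

open Classical in
private theorem dm_dist {D : Type} (x y : Dm D) : dist x y = if x = y then (0 : ℝ) else 1 := rfl

private theorem dm_eq {D : Type} {x y : Dm D} (h : dist x y < 1) : x = y := by
  classical
  by_contra hne
  rw [dm_dist, if_neg hne] at h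
  exact lt_irrefl _ h

private theorem dm_open {D : Type} (x : Dm D) : IsOpen ({x} : Set (Dm D)) := by
  rw [Metric.isOpen_iff]
  intro y hy
  refine ⟨1, one_pos, fun z hz => ?_⟩
  rw [mem_singleton_iff] at hy ⊢
  rw [← hy]
  exact dm_eq (Metric.mem_ball.1 hz)

private instance (D : Type) : DiscreteTopology (Dm D) :=
  discreteTopology_iff_isOpen_singleton.2 dm_open

private instance (D : Type) : CompleteSpace (Dm D) := by
  refine Metric.complete_of_cauchySeq_tendsto fun u hu => ?_
  obtain ⟨N, hN⟩ := Metric.cauchySeq_iff.1 hu 1 one_pos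
  refine ⟨u N, ?_⟩
  refine tendsto_const_nhds.congr' ?_
  filter_upwards [eventually_ge_atTop N] with n hn
  exact dm_eq (hN N le_rfl n hn)

private instance (D : Type) [h : Countable D] : Countable (Dm D) := h

/-- bijections are isometries -/
private noncomputable def dmIso {D : Type} (e : Equiv.Perm (Dm D)) : Dm D ≃ᵢ Dm D where
  toEquiv := e
  isometry_toFun := by
    classical
    refine Isometry.of_dist_eq fun x y => ?_
    rw [dm_dist, dm_dist]
    have h : (e.toFun x = e.toFun y) ↔ x = y := e.injective.eq_iff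
    by_cases hxy : x = y
    · rw [if_pos hxy, if_pos (h.2 hxy)]
    · rw [if_neg hxy, if_neg (fun h' => hxy (h.1 h'))]

theorem pf_ISD (h1 : Pool.Agent.H93.CP.T_EMB) (h2 : Pool.Agent.H93.CP.T_PCL)
    (h3 : Pool.Agent.H54.LP.T_X6) : T_ISD := by
  intro Γ _ _ _ _ hΓ
  obtain ⟨Z, _, _, _, _, _, _, _, hact, hst⟩ := h1 Γ hΓ
  have hc : ∀ γ : Γ, Continuous fun z : Z => γ • z := fun γ =>
    hact.comp (continuous_const.prodMk continuous_id)
  have hc' : ∀ z : Z, Continuous fun γ : Γ => γ • z := fun z =>
    hact.comp (continuous_id.prodMk continuous_const)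
  have hiso : ∀ (γ : Γ) (z : Z), IsOpen ({z} : Set Z) → IsOpen ({γ • z} : Set Z) := by
    intro γ z hz
    have e : ({γ • z} : Set Z) = (fun w => γ⁻¹ • w) ⁻¹' {z} := by
      ext w
      simp only [mem_singleton_iff, mem_preimage]
      constructor
      · rintro rfl
        exact inv_smul_smul γ z
      · intro h
        rw [← h, smul_inv_smul]
    rw [e]
    exact hz.preimage (hc γ⁻¹)
  let D := {z : Z // IsOpen ({z} : Set Z)}
  let ac : Γ → Equiv.Perm D := fun γ =>
    { toFun := fun z => ⟨γ • z.1, hiso γ z.1 z.2⟩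
      invFun := fun z => ⟨γ⁻¹ • z.1, hiso γ⁻¹ z.1 z.2⟩
      left_inv := fun z => Subtype.ext (inv_smul_smul γ z.1)
      right_inv := fun z => Subtype.ext (smul_inv_smul γ z.1) }
  let φ : Γ →* (Dm D ≃ᵢ Dm D) :=
    { toFun := fun γ => dmIso (D := D) (ac γ)
      map_one' := by
        ext z
        exact Subtype.ext (one_smul Γ (z : D).1)
      map_mul' := fun γ δ => by
        ext z
        exact Subtype.ext (mul_smul γ δ (z : D).1) }
  have hφ : ∀ (γ : Γ) (z : Dm D), φ γ z = (ac γ z : D) := fun γ z => rfl
  obtain ⟨h4, h5, -⟩ := h3 (Dm D)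
  have hcont : Continuous φ := by
    rw [continuous_induced_rng]
    refine continuous_pi fun z => ?_
    refine IsLocallyConstant.continuous ((IsLocallyConstant.iff_eventually_eq _).2 fun γ0 => ?_)
    have ho : IsOpen {γ : Γ | γ • (z : D).1 ∈ ({γ0 • (z : D).1} : Set Z)} :=
      (hiso γ0 (z : D).1 (z : D).2).preimage (hc' (z : D).1)
    filter_upwards [ho.mem_nhds (mem_singleton _)] with γ hγ
    exact Subtype.ext hγ
  have hev : ∀ z : Dm D, Continuous fun g : Dm D ≃ᵢ Dm D => g z := fun z =>
    (continuous_apply z).comp continuous_induced_dom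
  have hind : IsInducing φ := by
    rw [IsTopologicalGroup.isInducing_iff_nhds_one]
    refine le_antisymm ?_ ?_
    · rw [← map_le_iff_le_comap]
      have := hcont.tendsto 1
      rwa [map_one] at this
    · intro V hV
      obtain ⟨z, hz, hzV⟩ := hst V hV
      let z' : Dm D := (⟨z, hz⟩ : D)
      refine mem_comap.2 ⟨{g | g z' = z'}, ?_, ?_⟩
      · have ho : IsOpen {g : Dm D ≃ᵢ Dm D | g z' ∈ ({z'} : Set (Dm D))} :=
          (dm_open z').preimage (hev z')
        exact ho.mem_nhds (mem_singleton _)
      · intro γ hγ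
        exact hzV γ (congrArg Subtype.val hγ)
  have hinj : Function.Injective φ := hind.injective
  refine ⟨Dm D, inferInstance, inferInstance, inferInstance, inferInstance, φ, ⟨hind, hinj⟩, ?_⟩
  have h6 := h2 Γ (Dm D ≃ᵢ Dm D) φ hind hinj
  rwa [MonoidHom.coe_range] at h6

end Pool.Agent.H12.LP
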