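import Pool.Agent.H62.LP.T1

/-!
# A measure of finite energy gives a measure with potential at most one

Row POT of the page `H62_LOOP3.md`.
-/

set_option autoImplicit false

open MeasureTheory ProbabilityTheory Filter Topology Pool.Agent.H62.LP
open scoped ENNReal NNReal

namespace Pool.Agent.H12.LP

/-! ### the first step of a walk -/

/-- lists are empty or have a head -/
def listSum (V : Type) : Unit ⊕ (V × List V) ≃ List V where
  toFun := fun o => match o with
    | Sum.inl _ => []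
    | Sum.inr p => p.1 :: p.2
  invFun := fun l => match l with
    | [] => Sum.inl ()
    | a :: l => Sum.inr (a, l)
  left_inv := by rintro (_ | p) <;> rfl
  right_inv := by rintro (_ | ⟨a, l⟩) <;> rfl

theorem tsum_list {V : Type} (F : List V → ℝ≥0∞) :
    ∑' l, F l = F [] + ∑' a, ∑' l, F (a :: l) := by
  rw [← (listSum V).tsum_eq F, Summable.tsum_sum ENNReal.summable ENNReal.summable]
  congr 1
  · simp [listSum]
  · rw [← ENNReal.tsum_prod]
    rfl

/-- decomposition at the first step -/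
theorem Hk_first {V : Type} (q : V → V → ℝ≥0∞) (x y : V) :
    Hk q x y = ∑' z, q x z * Gk q z y := by
  classical
  unfold Hk
  rw [tsum_list]
  simp only [List.nil_append, List.cons_append, wt_cons, wt_nil, mul_one]
  simp only [ENNReal.tsum_mul_left]
  unfold Gk
  simp only [mul_add]
  rw [ENNReal.tsum_add]
  congr 1
  rw [tsum_eq_single y]
  · simp
  · intro z hz
    simp [hz]

theorem Gk_first {V : Type} (q : V → V → ℝ≥0∞) (x y : V) [Decidable (x = y)] :
    Gk q x y = (if x = y then 1 else 0) + ∑' z, q x z * Gk q z y := by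
  classical
  rw [← Hk_first]
  unfold Gk
  congr

/-- the equation of the potential -/
theorem pot_eq (g : V3 → ℝ≥0∞) (x : V3) : pot g x = g x + ∑' z, Q x z * pot g z := by
  classical
  unfold pot
  have h1 : ∀ y, Gr x y * g y = (if x = y then g y else 0) + ∑' z, Q x z * (Gr z y * g y) := by
    intro y
    rw [show Gr x y = _ from Gk_first Q x y, add_mul, ← ENNReal.tsum_mul_right]
    congr 1
    · split_ifs <;> simp
    · refine tsum_congr fun z => ?_
      rw [mul_assoc]
  simp only [h1]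
  rw [ENNReal.tsum_add]
  congr 1
  · rw [tsum_eq_single x]
    · simp
    · intro y hy
      simp [Ne.symm hy]
  · rw [ENNReal.tsum_comm]
    refine tsum_congr fun z => ?_
    rw [ENNReal.tsum_mul_left]

/-! ### the norm -/

theorem nm_le_iff (x : V3) (r : ℕ) : nm x ≤ r ↔ ∀ i, (x i).natAbs ≤ r := by
  unfold nm
  rw [Finset.sup_le_iff]
  simp

theorem nm_sub_le (x y : V3) : nm x ≤ nm (x - y) + nm y := by
  rw [nm_le_iff]
  intro i
  have h1 := (nm_le_iff (x - y) _).mp le_rfl i
  have h2 := (nm_le_iff y _).mp le_rfl i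
  rw [Pi.sub_apply] at h1
  omega

theorem finite_nm (r : ℕ) : {x : V3 | nm x ≤ r}.Finite := by
  refine (Set.finite_Icc (fun _ : Fin 3 => -(r : ℤ)) (fun _ : Fin 3 => (r : ℤ))).subset ?_
  intro x hx
  have h := (nm_le_iff x r).mp hx
  constructor
  · intro i
    have := h i
    simp only
    omega
  · intro i
    have := h i
    simp only
    omega

/-! ### the maximum principle for potentials -/

/-- sums of functions with finite support -/
theorem tsum_ne_top {g : V3 → ℝ≥0∞} (hg : {x | g x ≠ 0}.Finite) (F : V3 → ℝ≥0∞)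
    (h0 : ∀ y, g y = 0 → F y = 0) (hF : ∀ y, F y ≠ ⊤) : ∑' y, F y ≠ ⊤ := by
  rw [tsum_eq_sum (s := hg.toFinset)]
  · exact ENNReal.sum_ne_top.mpr fun y _ => hF y
  · intro y hy
    rw [Set.Finite.mem_toFinset] at hy
    exact h0 y (by simpa using hy)

theorem Gr_ne_top (hGUP : T_GUP) (x y : V3) : Gr x y ≠ ⊤ := by
  obtain ⟨C, hC, hG⟩ := hGUP
  refine ne_top_of_le_ne_top ?_ (hG x y)
  exact ENNReal.div_ne_top ENNReal.coe_ne_top (by simp)

/-- the maximum principle for potentials -/
theorem pot_max (hMAX : T_MAX) (hQAV : T_QAV) (hGUP : T_GUP) (g : V3 → ℝ≥0∞)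
    (hg : {x | g x ≠ 0}.Finite) (hgt : ∀ x, g x ≠ ⊤) (b : ℝ≥0) (hb : ∀ x, g x ≠ 0 → pot g x ≤ b)
    (x : V3) : pot g x ≤ b := by
  have hfin : ∀ x, pot g x ≠ ⊤ := by
    intro x
    refine tsum_ne_top hg _ (fun y hy => by rw [hy, mul_zero]) (fun y => ?_)
    exact ENNReal.mul_ne_top (Gr_ne_top hGUP x y) (hgt y)
  have hreal : ∀ x, pot g x = ENNReal.ofReal ((pot g x).toReal) := fun x =>
    (ENNReal.ofReal_toReal (hfin x)).symm
  obtain ⟨C, hC, hG⟩ := hGUP
  -- decay
  set B : ℝ≥0∞ := ∑' y, ((1 + nm y : ℕ) : ℝ≥0∞) * g y with hB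
  have hBt : B ≠ ⊤ := by
    refine tsum_ne_top hg _ (fun y hy => by rw [hy, mul_zero]) (fun y => ?_)
    exact ENNReal.mul_ne_top (ENNReal.natCast_ne_top _) (hgt y)
  have hdec : ∀ x, pot g x * ((1 + nm x : ℕ) : ℝ≥0∞) ≤ C * B := by
    intro x
    unfold pot
    rw [hB, ← ENNReal.tsum_mul_right, ← ENNReal.tsum_mul_left]
    refine ENNReal.tsum_le_tsum fun y => ?_
    have h1 : ((1 + nm x : ℕ) : ℝ≥0∞) ≤ ((1 + nm (x - y) : ℕ) : ℝ≥0∞) * ((1 + nm y : ℕ) : ℝ≥0∞) := by
      have h2 := nm_sub_le x y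
      have h3 : 1 + nm x ≤ (1 + nm (x - y)) * (1 + nm y) := by nlinarith
      calc ((1 + nm x : ℕ) : ℝ≥0∞) ≤ (((1 + nm (x - y)) * (1 + nm y) : ℕ) : ℝ≥0∞) := by
            exact_mod_cast h3
        _ = _ := by push_cast; ring
    calc Gr x y * g y * ((1 + nm x : ℕ) : ℝ≥0∞)
        ≤ Gr x y * g y * (((1 + nm (x - y) : ℕ) : ℝ≥0∞) * ((1 + nm y : ℕ) : ℝ≥0∞)) := by gcongr
      _ = (Gr x y * ((1 + nm (x - y) : ℕ) : ℝ≥0∞)) * (((1 + nm y : ℕ) : ℝ≥0∞) * g y) := by ring
      _ ≤ C * (((1 + nm y : ℕ) : ℝ≥0∞) * g y) := by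
          gcongr
          have h4 := hG x y
          rw [ENNReal.le_div_iff_mul_le (Or.inl (by simp)) (Or.inl (by simp))] at h4
          exact h4
  have key := hMAX (fun x => (pot g x).toReal) {x | g x ≠ 0} b b.2 ?_ ?_ ?_ x
  · rw [hreal x]
    exact ENNReal.ofReal_le_of_le_toReal key
  · -- harmonic outside of the support
    intro x hx
    have hx0 : g x = 0 := by simpa using hx
    have h1 := hQAV.2.2 (fun x => (pot g x).toReal) x (fun y => ENNReal.toReal_nonneg)
    have h2 := pot_eq g x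
    rw [hx0, zero_add] at h2
    have h3 : ∑' z, Q x z * pot g z = ∑' y, Q x y * ENNReal.ofReal ((pot g y).toReal) :=
      tsum_congr fun z => by rw [← hreal z]
    rw [h3, h1] at h2
    have h4 : 0 ≤ avg (fun x => (pot g x).toReal) x := by
      unfold avg
      exact div_nonneg (Finset.sum_nonneg fun i _ =>
        add_nonneg ENNReal.toReal_nonneg ENNReal.toReal_nonneg) (by norm_num)
    rw [h2, ENNReal.toReal_ofReal h4]
  · intro x hx
    have h1 := hb x hx
    exact ENNReal.toReal_le_of_le_ofReal b.2 (by rw [ENNReal.ofReal_coe_nnreal]; exact h1)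
  · intro δ hδ
    refine (finite_nm ⌈(C * B).toReal / δ⌉₊).subset ?_
    intro x hx
    have hx' : δ ≤ (pot g x).toReal := hx
    have h1 := ENNReal.toReal_mono (ENNReal.mul_ne_top ENNReal.coe_ne_top hBt) (hdec x)
    rw [ENNReal.toReal_mul, ENNReal.toReal_natCast] at h1
    have h2 : (nm x : ℝ) * δ ≤ (C * B).toReal := by
      have h3 : (nm x : ℝ) ≤ ((1 + nm x : ℕ) : ℝ) := by push_cast; linarith
      calc (nm x : ℝ) * δ ≤ ((1 + nm x : ℕ) : ℝ) * (pot g x).toReal :=
            mul_le_mul h3 hx' hδ.le (by positivity)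
        _ = (pot g x).toReal * ((1 + nm x : ℕ) : ℝ) := mul_comm _ _
        _ ≤ _ := h1
    have h4 : (nm x : ℝ) ≤ (C * B).toReal / δ := by
      rw [le_div_iff₀ hδ]; exact h2
    have h5 : (nm x : ℝ) ≤ (⌈(C * B).toReal / δ⌉₊ : ℝ) := h4.trans (Nat.le_ceil _)
    exact_mod_cast h5

/-! ### the row -/

theorem arith (m T E : ℝ≥0) (hT : T ≠ 0) (h : (m : ℝ≥0∞) * (4 * (E : ℝ≥0∞)) ≤ (T : ℝ≥0∞) ^ 2) :
    (m : ℝ≥0∞) / ((T : ℝ≥0∞) / 2) * (2 * (E : ℝ≥0∞) / (T : ℝ≥0∞)) ≤ 1 := by
  have h' : m * (4 * E) ≤ T ^ 2 := by exact_mod_cast h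
  have hT2 : T / 2 ≠ 0 := div_ne_zero hT (by norm_num)
  have e1 : (T : ℝ≥0∞) / 2 = ((T / 2 : ℝ≥0) : ℝ≥0∞) := by
    rw [ENNReal.coe_div (by norm_num)]; rfl
  have e2 : (2 * (E : ℝ≥0∞)) / (T : ℝ≥0∞) = ((2 * E / T : ℝ≥0) : ℝ≥0∞) := by
    rw [ENNReal.coe_div hT]; push_cast; rfl
  rw [e1, e2, ← ENNReal.coe_div hT2, ← ENNReal.coe_mul]
  have h3 : m / (T / 2) * (2 * E / T) ≤ 1 := by
    have e3 : m / (T / 2) * (2 * E / T) = m * (4 * E) / T ^ 2 := by
      field_simp
      ring
    rw [e3]
    exact div_le_one_of_le₀ h' (by positivity)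
  exact_mod_cast h3

/-- POT: a measure of finite energy gives a measure with potential at most one. -/
theorem pf_POT (hMAX : T_MAX) (hQAV : T_QAV) (hGUP : T_GUP) (_hGTR : T_GTR) : T_POT := by
  classical
  intro f hf hft hm0 m hm
  have hTt : mass f ≠ ⊤ := tsum_ne_top hf _ (fun y hy => hy) hft
  have hpt : ∀ x, pot f x ≠ ⊤ := by
    intro x
    refine tsum_ne_top hf _ (fun y hy => by rw [hy, mul_zero]) (fun y => ?_)
    exact ENNReal.mul_ne_top (Gr_ne_top hGUP x y) (hft y)
  have hE : erg f f = ∑' x, f x * pot f x := by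
    unfold erg pot
    refine tsum_congr fun x => ?_
    rw [← ENNReal.tsum_mul_left]
    refine tsum_congr fun y => ?_
    ring
  have hEt : erg f f ≠ ⊤ := by
    rw [hE]
    exact tsum_ne_top hf _ (fun y hy => by rw [hy, zero_mul])
      (fun y => ENNReal.mul_ne_top (hft y) (hpt y))
  have hE0 : erg f f ≠ 0 := by
    obtain ⟨x0, hx0⟩ : ∃ x, f x ≠ 0 := by
      by_contra hcon
      push Not at hcon
      apply hm0
      unfold mass
      simp [hcon]
    intro h0
    rw [hE] at h0
    have h1 := (ENNReal.tsum_eq_zero.mp h0) x0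
    have h2 : f x0 ≤ pot f x0 := by
      calc f x0 = 1 * f x0 := (one_mul _).symm
        _ ≤ Gr x0 x0 * f x0 := by
            gcongr
            show 1 ≤ Gk Q x0 x0
            unfold Gk
            rw [if_pos rfl]
            exact le_self_add
        _ ≤ pot f x0 := ENNReal.le_tsum x0
    rcases mul_eq_zero.mp h1 with h3 | h3
    · exact hx0 h3
    · rw [h3] at h2
      exact hx0 (le_antisymm h2 (zero_le))
  set T := mass f with hT
  set E := erg f f with hEdef
  set b : ℝ≥0∞ := 2 * E / T with hb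
  have hbt : b ≠ ⊤ := ENNReal.div_ne_top (ENNReal.mul_ne_top (by norm_num) hEt) hm0
  have hb0 : b ≠ 0 := by
    rw [hb]
    intro h0
    rcases ENNReal.div_eq_zero_iff.mp h0 with h1 | h1
    · rcases mul_eq_zero.mp h1 with h2 | h2
      · norm_num at h2
      · exact hE0 h2
    · exact hTt h1
  -- the part with small potential
  set g : V3 → ℝ≥0∞ := fun x => if pot f x ≤ b then f x else 0 with hg
  set g' : V3 → ℝ≥0∞ := fun x => if pot f x ≤ b then 0 else f x with hg'
  have hgf : ∀ x, g x ≤ f x := by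
    intro x
    rw [hg]
    simp only
    split_ifs
    · exact le_rfl
    · exact zero_le
  have hsum : T = mass g + mass g' := by
    rw [hT]
    unfold mass
    rw [← ENNReal.tsum_add]
    refine tsum_congr fun x => ?_
    rw [hg, hg']
    simp only
    split_ifs <;> simp
  have hmark : b * mass g' ≤ b * (T / 2) := by
    have e1 : b * (T / 2) = E := by
      rw [hb]
      have e2 : 2 * E / T * (T / 2) = E * (2 * 2⁻¹) * (T⁻¹ * T) := by
        rw [ENNReal.div_eq_inv_mul, ENNReal.div_eq_inv_mul]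
        ring
      rw [e2, ENNReal.mul_inv_cancel (by norm_num) (by norm_num), ENNReal.inv_mul_cancel hm0 hTt,
        mul_one, mul_one]
    rw [e1, hE]
    unfold mass
    rw [← ENNReal.tsum_mul_left]
    refine ENNReal.tsum_le_tsum fun x => ?_
    rw [hg']
    simp only
    split_ifs with h1
    · rw [mul_zero]; exact zero_le
    · rw [mul_comm]
      gcongr
      exact (not_le.mp h1).le
  have hmg' : mass g' ≤ T / 2 := (ENNReal.mul_le_mul_iff_right hb0 hbt).mp hmark
  have hmg : T / 2 ≤ mass g := by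
    have h1 : T / 2 + T / 2 ≤ mass g + T / 2 := by
      rw [ENNReal.add_halves]
      calc T = mass g + mass g' := hsum
        _ ≤ mass g + T / 2 := by gcongr
    exact (ENNReal.add_le_add_iff_right (ENNReal.div_ne_top hTt (by norm_num))).mp h1
  have hT20 : T / 2 ≠ 0 := by
    intro h0
    rcases ENNReal.div_eq_zero_iff.mp h0 with h1 | h1
    · exact hm0 h1
    · norm_num at h1
  have hmg0 : mass g ≠ 0 := fun h0 => hT20 (le_antisymm (h0 ▸ hmg) (zero_le))
  have hmgt : mass g ≠ ⊤ := ne_top_of_le_ne_top hTt (hsum ▸ le_self_add)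
  have hgfin : {x | g x ≠ 0}.Finite := by
    refine hf.subset fun x hx => ?_
    intro h0
    apply hx
    exact le_antisymm (h0 ▸ hgf x) (zero_le)
  have hgt : ∀ x, g x ≠ ⊤ := fun x => ne_top_of_le_ne_top (hft x) (hgf x)
  have hpg : ∀ x, pot g x ≤ b := by
    intro x
    have h1 := pot_max hMAX hQAV hGUP g hgfin hgt b.toNNReal ?_ x
    · rwa [ENNReal.coe_toNNReal hbt] at h1
    · intro y hy
      rw [ENNReal.coe_toNNReal hbt]
      have h2 : pot f y ≤ b := by
        by_contra h3
        apply hy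
        rw [hg]
        simp only
        rw [if_neg h3]
      refine le_trans ?_ h2
      unfold pot
      exact ENNReal.tsum_le_tsum fun z => by gcongr; exact hgf z
  refine ⟨fun x => (m / mass g) * g x, ?_, ?_, ?_⟩
  · intro x hx
    have h1 : g x = 0 := le_antisymm (hx ▸ hgf x) (zero_le)
    show m / mass g * g x = 0
    rw [h1, mul_zero]
  · show ∑' x, (m / mass g) * g x = m
    rw [ENNReal.tsum_mul_left]
    exact ENNReal.div_mul_cancel hmg0 hmgt
  · intro x
    have h1 : pot (fun x => (m / mass g) * g x) x = (m / mass g) * pot g x := by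
      unfold pot
      rw [← ENNReal.tsum_mul_left]
      refine tsum_congr fun y => ?_
      ring
    rw [h1]
    have hTn : (T.toNNReal : ℝ≥0∞) = T := ENNReal.coe_toNNReal hTt
    have hEn : (E.toNNReal : ℝ≥0∞) = E := ENNReal.coe_toNNReal hEt
    have hmt : m ≠ ⊤ := by
      intro h0
      rw [h0, ENNReal.top_mul (mul_ne_zero (by norm_num) hE0)] at hm
      exact ENNReal.pow_ne_top hTt (top_le_iff.mp hm)
    have hmn : (m.toNNReal : ℝ≥0∞) = m := ENNReal.coe_toNNReal hmt
    have h2 := arith m.toNNReal T.toNNReal E.toNNReal (by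
      intro h0
      apply hm0
      rw [← hTn, h0]
      rfl) (by rw [hTn, hEn, hmn]; exact hm)
    rw [hTn, hEn, hmn] at h2
    calc (m / mass g) * pot g x ≤ (m / (T / 2)) * b := by
          gcongr
          exact hpg x
      _ ≤ 1 := h2

end Pool.Agent.H12.LP
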