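import Pool.Agent.H7.LP.Targets

/-!
# Row RCZ of lpg_modules: measurable recursion with countably many choices
-/

set_option autoImplicit false

namespace Pool.Agent.H12.LP

open Pool.Agent.H7.LP

open Classical in
/-- the first element of the sequence `f` with the property `P` -/
private noncomputable def ch {A : Type} (f : ℕ → A) (P : A → Prop) : A :=
  if h : ∃ n, P (f n) then f (Nat.find h) else f 0

private theorem ch_spec {A : Type} (f : ℕ → A) (hf : Function.Surjective f) (P : A → Prop)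
    (h : ∃ a, P a) : P (ch f P) := by
  classical
  obtain ⟨a, ha⟩ := h
  obtain ⟨n, rfl⟩ := hf a
  have h : ∃ n, P (f n) := ⟨n, ha⟩
  unfold ch
  rw [dif_pos h]
  exact Nat.find_spec h

private theorem ch_iff {A : Type} (f : ℕ → A) (P : A → Prop) (a : A) : ch f P = a ↔
    (∃ n, f n = a ∧ P (f n) ∧ ∀ m, m < n → ¬ P (f m)) ∨ ((∀ n, ¬ P (f n)) ∧ f 0 = a) := by
  classical
  by_cases h : ∃ n, P (f n)
  · unfold ch
    rw [dif_pos h]
    constructor
    · intro h1
      exact Or.inl ⟨Nat.find h, h1, Nat.find_spec h, fun m hm => Nat.find_min h hm⟩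
    · rintro (⟨n, h1, h2, h3⟩ | ⟨h1, -⟩)
      · rw [← h1]
        exact congrArg f ((Nat.find_eq_iff h).2 ⟨h2, h3⟩)
      · obtain ⟨n, hn⟩ := h
        exact absurd hn (h1 n)
  · unfold ch
    rw [dif_neg h]
    have h' : ∀ n, ¬ P (f n) := fun n hn => h ⟨n, hn⟩
    constructor
    · intro h1
      exact Or.inr ⟨h', h1⟩
    · rintro (⟨n, -, h2, -⟩ | ⟨-, h1⟩)
      · exact absurd h2 (h' n)
      · exact h1

private theorem ch_meas {Ω A : Type} [MeasurableSpace Ω] (f : ℕ → A) (Q : Ω → A → Prop)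
    (hQ : ∀ a, MeasurableSet {ω | Q ω a}) (a : A) : MeasurableSet {ω | ch f (Q ω) = a} := by
  have e : {ω | ch f (Q ω) = a} =
      (⋃ n, ({_ω : Ω | f n = a} ∩ ({ω | Q ω (f n)} ∩ ⋂ m, ⋂ (_ : m < n), {ω | Q ω (f m)}ᶜ))) ∪
      ((⋂ n, {ω | Q ω (f n)}ᶜ) ∩ {_ω : Ω | f 0 = a}) := by
    ext ω
    simp only [Set.mem_setOf_eq, Set.mem_union, Set.mem_iUnion, Set.mem_inter_iff,
      Set.mem_iInter, Set.mem_compl_iff]
    exact ch_iff f (Q ω) a
  rw [e]
  refine (MeasurableSet.iUnion fun n => ?_).union ?_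
  · exact (MeasurableSet.const _).inter ((hQ _).inter
      (MeasurableSet.iInter fun m => MeasurableSet.iInter fun _ => (hQ (f m)).compl))
  · exact (MeasurableSet.iInter fun n => (hQ (f n)).compl).inter (MeasurableSet.const _)

private noncomputable def rc {Ω A : Type} (f : ℕ → A) (I : Ω → A → Prop)
    (T : Ω → ℕ → A → A → Prop) (ω : Ω) : ℕ → A
  | 0 => ch f (I ω)
  | s + 1 => ch f (T ω s (rc f I T ω s))

theorem pf_RCZ : T_RCZ := by
  intro Ω A _ _ _ I T hI hT
  obtain ⟨f, hf⟩ := exists_surjective_nat A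
  refine ⟨rc f I T, ?_, ?_, ?_⟩
  · intro s
    induction s with
    | zero => exact fun a => ch_meas f I hI a
    | succ s ih =>
      intro a
      have e : {ω | rc f I T ω (s + 1) = a} =
          ⋃ a0, ({ω | rc f I T ω s = a0} ∩ {ω | ch f (T ω s a0) = a}) := by
        ext ω
        simp only [Set.mem_setOf_eq, Set.mem_iUnion, Set.mem_inter_iff, rc]
        constructor
        · intro h
          exact ⟨_, rfl, h⟩
        · rintro ⟨a0, h1, h2⟩
          rw [h1]
          exact h2
      rw [e]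
      exact MeasurableSet.iUnion fun a0 => (ih a0).inter
        (ch_meas f (fun ω => T ω s a0) (fun a' => hT s a0 a') a)
  · intro ω h
    exact ch_spec f hf (I ω) h
  · intro ω s h
    exact ch_spec f hf (T ω s (rc f I T ω s)) h

end Pool.Agent.H12.LP
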